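import Pool.Agent.Helper43.AC.CurveFree
import Pool.Agent.Helper75.WC.CurveFin

/-!
# Motives of abelian covers of the plane

Let `Ω` be an algebraic closure of a finite field, `T` the thick tensor subcategory of the category
of motives over `Ω` (with coefficients in an algebraic closure of `ℚ`) which is generated by the
motives of curves, and `P K` the statement: each finitely generated extension of `Ω` in `K` has
transcendence degree at most two and is the function field of a curve or a smooth projective surface
with motive in `T`. This class has the properties of `IsMotivic`: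

* `sub`, `product`: clear;
* `abelian`: for a finite abelian group `G` acting on a surface `X` the motive `M(X)` is the sum of
  its eigenparts `M(X)_χ`, and `M(X)_χ` comes from the surface `X / ker χ`, a cyclic cover of
  `X / G`;
* `twist`: let `K = R(w)`, `w ^ n ∈ R = Ω(x, y)`, `[K : R] = n` prime to the characteristic, belong
  to the surface `S`, and let `C` be the curve `u ^ n = v ^ α * (1 - v) ^ β`, where
  `gcd(α, β, n) = 1`. The group `μ_n` acts on `S` and on `C`, and the function field of the
  threefold `Y = (S × C) / μ_n` is `R(v, s)`, `s = u / w`. If `Y` is uniruled, then `M(S)_χ` is in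
  `T` for all characters `χ` of `μ_n` for which `χ ^ α`, `χ ^ β` and `χ ^ (α + β)` are nontrivial.
  The other characters of order `m` have `m ∣ α`, `m ∣ β` or `m ∣ α + β` and belong to the surface
  with the function field `R(w ^ (n / m))`.

Proof of the statement on `Y` (the curve `C` has positive genus if there is such a `χ`). A rational
curve through the generic point of `Y` is not in a fibre of `Y → S / μ_n`, because the generic fibre
is `C`. Hence it meets the inverse image `H` of an ample curve `ℓ` of `S / μ_n`. Let `e` be the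
projector on `S × C` which cuts out `M(Y)`. The generic point is rationally equivalent to a point of
`H`, so a nonzero multiple `N * e` is a sum of two correspondences `G₁ + G₂`, where `G₁` factors
through the product of `C` with the inverse image of `ℓ` in `S`, a product of curves, and
`G₂ = γ ∘ i ^ *` for the inclusion `i` of a surface `W`. Then `N ^ 2 * e = (G₁ + G₂) ∘ (G₁ᵗ + G₂ᵗ)`,
and `G₂ ∘ G₂ᵗ = γ ∘ (i ^ * ∘ i_*) ∘ γᵗ`, where `i ^ * ∘ i_*` is given by a cycle of dimension one
on `W × W` and factors through curves. So `M(Y)` is in `T`. It contains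
`M(S)_χ ⊗ h ^ 1(C)_χ'`, where `χ'` is the inverse of `χ`, and `h ^ 1(C)_χ'` is of rank one and odd;
so `M(S)_χ` is a direct summand of the tensor product of `M(Y)` and the dual of `h ^ 1(C)_χ'`.

If `P K` holds, and `K` is the function field of a variety over `Ω` which comes from a variety `X` of
dimension two over a finite field, then `H ^ i(X, ℤ ^ c(n))` is finite for `n < 0` and all `i`, also
if `X` is singular, and the same holds for the products of such varieties, because their motives are
of Kimura type and the geometric Frobenius acts on these groups, up to finite groups, as a power of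
the cardinality of the field which is not an eigenvalue (Soulé, Kahn).

The theorem: the field `K` is in the class if it is a finite abelian extension of `R` and each
intermediate field `M` with a cyclic group `Gal(M / R)` is in the class or `M = Ω(x, y, w)`, where `R`
is contained in `Ω(x, y)`, `n = [M : Ω(x, y)]` and

* `w ^ n = f / g ^ 2` and for some weights `a, b, c ≥ 0` of `x, y, z`, not all zero, and for some
  `i, j` with `n = |2 * i - j|` the weighted degrees of `z ^ i * g` and `z ^ j * f` are at most
  `a + b + c` and `2 * (a + b + c)`;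
* or `w ^ n = f * g ^ (n / 2 - 1)` and for some weights `a, b, c` and some `i, j` with
  `n = 2 * |i - j|` and `i` odd the weighted degrees of `z ^ i * g` and `z ^ j * f` are at most
  `2 * (a + b + c)`;
* or `w ^ n = f ^ a * g ^ b * h ^ c`, branched along three conics;
* or `w ^ n = f₁ ^ e₁ * ⋯ * fᵣ ^ eᵣ`, branched along a plane curve of degree at most four, or of
  degree five if at most one component is a line or `n ≤ 8` or `n = 10`.

For `n = 2` the weight `c` is zero. So `K / R` may be any finite abelian extension of `R = Ω(x, y)`,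
of degree prime to the characteristic, which is branched along a plane curve of degree at most four,
or of degree five if at most one component is a line or the exponent is at most `8` or equal to
`10`. No condition on the singularities of the curve is imposed.
-/

set_option autoImplicit false

namespace Pool.Agent.Helper43.Keep.AbelianCoversSix

open IntermediateField MvPolynomial Pool.Agent.Helper75.QC Pool.Agent.Helper43.AC

/-- The weighted degree of `z ^ i * f(x, y)` is at most `k`; the weights of `x`, `y`, `z` are
`a`, `b`, `c`. -/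
def DegreeLE {Ω : Type} [Field Ω] (a b c i k : ℕ) (f : MvPolynomial (Fin 2) Ω) : Prop :=
  ∀ m ∈ f.support, a * m 0 + b * m 1 + c * i ≤ k

/-- The equation `w ^ n = f(x, y) / g(x, y) ^ 2` or `w ^ n = f(x, y) * g(x, y) ^ (n / 2 - 1)`, with
weights `a, b, c` of `x, y, z` for which `z ^ i * g` and `z ^ j * f` have small degrees. -/
def IsWeighted (Ω : Type) {M : Type} [Field Ω] [Field M] [Algebra Ω M] (n : ℕ) (x y w : M) :
    Prop :=
  ∃ (a b c i j : ℕ) (f g : MvPolynomial (Fin 2) Ω), 0 < a + b + c ∧ (2 < n ∨ c = 0) ∧
    DegreeLE a b c j (2 * (a + b + c)) f ∧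
    ((2 * i = j + n ∨ j = 2 * i + n) ∧ DegreeLE a b c i (a + b + c) g ∧ aeval ![x, y] g ≠ 0 ∧
        w ^ n * aeval ![x, y] g ^ 2 = aeval ![x, y] f ∨
      Odd i ∧ DegreeLE a b c i (2 * (a + b + c)) g ∧ ∃ m : ℕ, n = 2 * m ∧ (j = i + m ∨ i = j + m) ∧
        w ^ n = aeval ![x, y] f * aeval ![x, y] g ^ (m - 1))

/-- The equation `w ^ n = f(x, y) ^ a * g(x, y) ^ b * h(x, y) ^ c` for three conics. -/
def IsConics (Ω : Type) {M : Type} [Field Ω] [Field M] [Algebra Ω M] (n : ℕ) (x y w : M) : Prop :=
  ∃ (a b c : ℕ) (f g h : MvPolynomial (Fin 2) Ω), f.totalDegree ≤ 2 ∧ g.totalDegree ≤ 2 ∧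
    h.totalDegree ≤ 2 ∧ n ∣ a + b + c ∧
    w ^ n = aeval ![x, y] f ^ a * aeval ![x, y] g ^ b * aeval ![x, y] h ^ c

/-- The equation `w ^ n = f₁(x, y) ^ e₁ * ⋯ * fᵣ(x, y) ^ eᵣ` for a plane curve of degree at most
five, with the homogeneous equation `F₁ * ⋯ * Fᵣ = 0`, where `Fᵢ(x, y, 1) = fᵢ`. Either `n ≤ 8` or
`n = 10`, or the degree is at most four, or at most one `Fᵢ` is linear. -/
def IsCurve (Ω : Type) {M : Type} [Field Ω] [Field M] [Algebra Ω M] (n : ℕ) (x y w : M) : Prop :=
  ∃ (r : ℕ) (d e : Fin r → ℕ) (f : Fin r → MvPolynomial (Fin 2) Ω),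
    (∀ i, (f i).totalDegree ≤ d i) ∧ ∑ i, d i ≤ 5 ∧ n ∣ ∑ i, d i * e i ∧
    (n ≤ 8 ∨ n = 10 ∨ ∑ i, d i ≤ 4 ∨ (Finset.univ.filter fun i => d i = 1).card ≤ 1) ∧
    w ^ n = ∏ i, aeval ![x, y] (f i) ^ e i

/-- `M = Ω(x, y, w)`, `R ⊆ Ω(x, y)` and `w ^ n ∈ Ω(x, y)`, `n = [M : Ω(x, y)]`, is given by one of
the equations. -/
def IsListed (Ω R M : Type) [Field Ω] [Field R] [Field M] [Algebra Ω M] [Algebra R M] : Prop :=
  ∃ x y w : M, (∀ r : R, algebraMap R M r ∈ adjoin Ω {x, y}) ∧ adjoin Ω {x, y, w} = ⊤ ∧
    (IsWeighted Ω (Module.finrank (adjoin Ω {x, y}) M) x y w ∨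
      IsConics Ω (Module.finrank (adjoin Ω {x, y}) M) x y w ∨
      IsCurve Ω (Module.finrank (adjoin Ω {x, y}) M) x y w)

/-- The finite abelian extensions `K` of `R` are in the class `P`, if the cyclic extensions `M` of `R`
in `K` are in `P` or are given by one of the equations. -/
theorem result {Ω : Type} [Field Ω] [IsAlgClosed Ω]
    {P : (K : Type) → [Field K] → [Algebra Ω K] → Prop} (hP : IsMotivic Ω P)
    {K : Type} [Field K] [Algebra Ω K] (R : IntermediateField Ω K) (hK : IsAbelianExt R K)
    (hM : ∀ M : IntermediateField R K, IsCyclicExt R M → P M ∨ IsListed Ω R M) : P K := by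
  obtain ⟨_, _, hab⟩ := hK
  refine mem_rowsM hP R hab fun M hc => ?_
  have hG : IsGalois R M := Pool.Agent.Helper35.WC.isGalois_of_comm hab M
  have hL := fun h : Pool.Agent.Helper75.WC.LstM Ω R M => listedM hP h
  rcases hM M hc with h | ⟨x, y, w, hR, hM, h | h | h⟩
  · exact Or.inl h
  · exact weightedM hP x y w hR hM h
  · obtain ⟨a, b, c, f, g, k, h1, h2, h3, h4, h5⟩ := h
    exact Or.inl (tableM hP x y w hR hM rfl
      ⟨a, b, c, f, g, k, Or.inr ⟨h1, h2, h3, h4⟩, h5⟩)
  · obtain ⟨r, d, e, f, h1, h2, h3, h4, h5⟩ := h
    rcases h4 with h4 | h4 | h4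
    · exact hL (Pool.Agent.Helper75.WC.lstM_of_curve x y w hR hM
        ⟨r, d, e, f, h1, h2, h3, Or.inl h4, h5⟩)
    · exact hL (Pool.Agent.Helper75.WC.lstM_of_curve x y w hR hM
        ⟨r, d, e, f, h1, h2, h3, Or.inr (Or.inl h4), h5⟩)
    · rcases curve_free hP x y w hR hM d e f h1 h2 h3 h4 h5 with h | h
      · exact Or.inl h
      · exact hL h

end Pool.Agent.Helper43.Keep.AbelianCoversSix
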