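import Pool.Agent.Helper2.AV.Fin

/-!
Strong symplectic Mumford-Tate pairs of weights zero and one with a semisimple standard
representation (all Albert types) and a place of bad reduction for every irreducible
subrepresentation: the complete list of the triples (dimension, signature, toric rank) which
force the group to contain the derived group of the Lefschetz group.
-/

open Module MTPairs

namespace Pool.Agent.Results.MP_b8862a_ag.AllTypes

/-- Let `R` be a set of triples `(D, s, r)` of natural numbers with `0 < r`. The following are
equivalent: every strong symplectic Mumford-Tate pair of weights `0` and `1` (the group `G` is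
generated by the conjugates of one cocharacter, given by the idempotent `π`, under `G` and under
a group `Γ` of semilinear automorphisms normalising `G`), whose standard representation is
semisimple, and such that for every irreducible subrepresentation `W` there is a triple
`(dim W, s, r)` in `R` for which `W` has a place of bad reduction of toric rank `r` and some
conjugate of `π` has on `W` eigenspaces of dimensions `s` and `dim W - s ≥ s`, contains all the
isometries of the form with Gram matrix `J` which commute with all the endomorphisms of the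
representation and have determinant one on every irreducible subrepresentation; `R` contains no
triple `(C(n, k), C(n - 1, k - 1), C(n - 2, k - 1))` with `5 ≤ n` and `2 ≤ k ≤ n / 2`, no triple
`(2 ^ (n - 1), 2 ^ (n - 2), 2 ^ (n - 3))` or `(2 ^ (n - 1), 2 ^ (n - 2), 2 ^ (n - 2))` with
`4 ≤ n`, and not both `(6, 3, 2)` and `(4, 1, 1)`. -/
theorem result {K : Type*} [Field K] [IsAlgClosed K] [CharZero K]
    (R : Set (ℕ × ℕ × ℕ)) (hR : ∀ D s r, (D, s, r) ∈ R → 0 < r) :
    (∀ (m : Type) [Fintype m] [DecidableEq m] (Γ : Subgroup (Equiv.Perm (m → K)))
      (J : Matrix m m K) (G : Subgroup (Matrix.GeneralLinearGroup m K)) (π : Matrix m m K),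
      IsStrongMTPair Γ J G π → IsReductiveRep G →
      (∀ W, IsIrrSub G W → ∃ s r, BadAt Γ G π W r ∧ HasSig Γ G π W s ∧
        (finrank K W, s, r) ∈ R) → ContainsDer J G) ↔
    (∀ n k, 5 ≤ n → 2 ≤ k → 2 * k ≤ n →
      (n.choose k, (n - 1).choose (k - 1), (n - 2).choose (k - 1)) ∉ R) ∧
    (∀ n, 4 ≤ n → (2 ^ (n - 1), 2 ^ (n - 2), 2 ^ (n - 3)) ∉ R ∧
      (2 ^ (n - 1), 2 ^ (n - 2), 2 ^ (n - 2)) ∉ R) ∧
    ((6, 3, 2) ∉ R ∨ (4, 1, 1) ∉ R) :=
  AV.criterion R hR

end Pool.Agent.Results.MP_b8862a_ag.AllTypes
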