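import Pool.Agent.Helper21.TR.Rat2

/-!
Strong symplectic Mumford-Tate pairs of weights zero and one in which the symmetries fixing a
quadratic unipotent element are dense, with a Frobenius element at a bad place: the complete list
of the triples (rank, number of eigenvalues on the abelian part, dimension) which force the group
to be as large as possible.
-/

open Module MTPairs

namespace Pool.Agent.Results.MP_b8862a_ag.BadPlaceRational

/-- For a set `R` of triples of natural numbers the following are equivalent: every strong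
symplectic Mumford-Tate pair of weights `0` and `1` (the group `G` is generated by the conjugates
of one cocharacter under `G` and under a group `Γ` of semilinear automorphisms normalising `G`),
whose standard representation is an orthogonal sum of pairwise non isomorphic irreducible
summands `W j` stable under `Γ`, and such that for every `j` there is `(r, k, dim (W j))` in `R`
for which the elements of `Γ` commuting with a quadratic unipotent element of `G` of rank `r` on
`W j` are dense in `Γ`, and some elements `u`, `g` of `G` are as at a place of bad reduction,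
with `u` of rank `r` and with `k` different eigenvalues of `g` on the kernel of `u - 1` modulo
the image of `u - 1`, is the full group of similitudes preserving the summands; `R` contains
neither `(C(2n - 2, n - 1), k, C(2n, n))` with `n ≥ 3` odd and `k = 1, 2`, nor
`(2 ^ (n - 2), k, 2 ^ n)` with `k = 1, 2` or `(2 ^ (n - 1), 0, 2 ^ n)`, with `n ≥ 5` congruent to
`1` or `2` modulo `4`. -/
theorem result {K : Type*} [Field K] [IsAlgClosed K] [CharZero K] (R : Set (ℕ × ℕ × ℕ)) :
    (∀ (m ι : Type) [Fintype m] [DecidableEq m] [Fintype ι] [DecidableEq ι]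
      (Γ : Subgroup (Equiv.Perm (m → K))) (J : Matrix m m K)
      (G : Subgroup (Matrix.GeneralLinearGroup m K)) (π : Matrix m m K)
      (W : ι → Submodule K (m → K)), IsStrongMTPair Γ J G π → IsSplit J G W → IsStable Γ W →
      (∀ j, ∃ r k : ℕ, DenseQuad Γ G (W j) r ∧ (∃ u ∈ G, ∃ g ∈ G, IsBadEig u g (W j) r k) ∧
        (r, k, finrank K (W j)) ∈ R) → IsFull J G W) ↔
    (∀ n, Odd n → 3 ≤ n → ∀ k, k = 1 ∨ k = 2 →
      ((2 * n - 2).choose (n - 1), k, (2 * n).choose n) ∉ R) ∧
    (∀ n, n % 4 = 1 ∨ n % 4 = 2 → 5 ≤ n →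
      (∀ k, k = 1 ∨ k = 2 → (2 ^ (n - 2), k, 2 ^ n) ∉ R) ∧ (2 ^ (n - 1), 0, 2 ^ n) ∉ R) := by
  rw [TR.rational_eig]
  constructor
  · intro h
    refine ⟨fun n hn hn3 k hk hr => h _ _ _ hr (Or.inl ⟨n, hn, hn3, rfl, rfl, hk⟩),
      fun n hn hn5 => ⟨fun k hk hr => h _ _ _ hr (Or.inr ⟨n, hn, hn5, rfl, Or.inl ⟨rfl, hk⟩⟩),
      fun hr => h _ _ _ hr (Or.inr ⟨n, hn, hn5, rfl, Or.inr ⟨rfl, rfl⟩⟩)⟩⟩
  · rintro ⟨h1, h2⟩ r k D hr
      (⟨n, hn, hn3, rfl, rfl, hk⟩ | ⟨n, hn, hn5, rfl, ⟨rfl, hk⟩ | ⟨rfl, rfl⟩⟩)
    · exact h1 n hn hn3 k hk hr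
    · exact (h2 n hn hn5).1 k hk hr
    · exact (h2 n hn hn5).2 hr

end Pool.Agent.Results.MP_b8862a_ag.BadPlaceRational
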