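import Pool.Agent.Helper71.CT.Main

/-!
# Towers over the del Pezzo surfaces of degree one
-/

set_option autoImplicit false

namespace Pool.Agent.Results.MP_e93a6a_ag.ConeTowers

open MvPolynomial Pool.Agent.Helper29.CQ

/-- Let `p` be an odd prime and let `P` be a class of finitely generated rings of characteristic
`p` with the formal properties `FormalClass p P`. Let `k` be a finite field of characteristic `p`,
let `(a, b, c)` be a permutation of `(1, 2, 3)` and let `g` be a polynomial in three variables such
that `a i + b j + 2 c m ≤ 6` for all monomials `x ^ i y ^ j t ^ m` of `g`. Then `P` contains the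
ring `k[x, y, w] / (g(x, y, w ^ n))` for every `n ≥ 1`. -/
theorem result (p : ℕ) (hp : p.Prime) (hp2 : p ≠ 2) (P : ∀ (A : Type) [CommRing A], Prop)
    (hP : FormalClass p P) (k : Type) [Field k] [Finite k] [CharP k p] (a b c : ℕ)
    (habc : List.Perm [a, b, c] [1, 2, 3]) (g : MvPolynomial (Fin 3) k)
    (hg : ∀ m ∈ g.support, a * m 0 + b * m 1 + 2 * c * m 2 ≤ 6) (n : ℕ) (hn : 0 < n) :
    P (MvPolynomial (Fin 3) k ⧸ Ideal.span {bind₁ ![X 0, X 1, X 2 ^ n] g}) :=
  Pool.Agent.Helper71.CT.cone_towers hp hp2 hP k a b c habc g hg n hn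

end Pool.Agent.Results.MP_e93a6a_ag.ConeTowers
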