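import Pool.Agent.Helper43.GP.FinalN

/-!
Polarised rational Hodge structures of any weight, with any endomorphism algebra, such that every block has a large Hodge
number at all places, or at one place where its Hodge numbers have no common divisor: the Mumford-Tate group contains all the
isometries of determinant one on the blocks that commute with its semi-invariants, and it is contained in the group of the
tensors fixed by open subgroups of the Galois group.
-/

open Matrix MH

namespace Pool.Agent.Results.MP_b8862a_ag.LargeHodgeNumber

/-- Let `V = ℚ^n` carry a rational Hodge structure of weight `w` (given by the projections `P p` to the subspaces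
`V^{p, w-p}`) polarised by the form with matrix `Q`. The blocks are the primitive idempotents `e` of the complexified
endomorphism algebra; `e V` is an irreducible constituent of `V ⊗ ℂ` over the Mumford-Tate group. A block is large if some
Hodge number `h = rank (e P p)` satisfies `r ≤ 1` or `(r + 1) ^ 2 ≤ dim e V`, `r = dim e V - h`; or if it has an invariant
symmetric form, `w = 2 m`, and `e V` is of type `(m, m)` or `s ^ 2 < rank (e P m)`, `s ≥ 2` the sum of the Hodge numbers
`rank (e P p)` with `p > m`. Suppose that for every block all the conjugates by automorphisms of `ℂ` are large, or that one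
of them is large and its Hodge numbers have no common divisor. Then

(1) the Mumford-Tate group contains the group `D` of all isometries of `Q` that commute with all matrices spanning a line
stable under the Mumford-Tate group and have determinant one on all the blocks, and `D` contains all the commutators of the
Mumford-Tate group;
(2) let `Γ` be a group of similitudes of `ℚ_ℓ^n` such that a subgroup of finite index preserves all lines of matrices stable
under the Mumford-Tate group, and such that for every automorphism `σ` of `ℂ` there is a Hodge-Tate decomposition with the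
same numbers on the blocks as the conjugate by `σ` of the Hodge decomposition. If `Γ` contains a monodromy group, with an
element without scalar power on every block of rank at least two, or if for every block of rank at least two the Hodge numbers
of some conjugate block have no common divisor, and the subgroups of finite index of `Γ` are semisimple and preserve no other
lines than those stable under the Mumford-Tate group, then the tensors fixed by subgroups of finite index of `Γ` are fixed by
the Mumford-Tate group; and conversely, if the theorem of Serre on abelian representations holds for `Γ`. -/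
theorem result {n : Type*} [Fintype n] [DecidableEq n] (w : ℤ) (Q : Matrix n n ℚ) (S : Finset ℤ)
    (P : ℤ → Matrix n n ℂ) (H : IsHW w Q S P)
    (hdom : ∀ e, IsBlk P e → (∀ σ : ℂ ≃+* ℂ, DomB w Q S P (e.map σ)) ∨
      ∃ σ : ℂ ≃+* ℂ, DomB w Q S P (e.map σ) ∧ ∀ d : ℕ, (∀ p, d ∣ (e.map σ * P p).rank) → d = 1) :
    (∀ g : GL n ℂ, InD Q S P (g : Matrix n n ℂ) → g ∈ MT S P) ∧
    (∀ g ∈ MT S P, ∀ h ∈ MT S P, InD Q S P ((g * h * g⁻¹ * h⁻¹ : GL n ℂ) : Matrix n n ℂ)) ∧
    ∀ (ℓ : ℕ) [Fact ℓ.Prime] (ι : ℚ_[ℓ] →+* ℂ) (Γ : Subgroup (GL n ℚ_[ℓ])),
      IsGalN w Q S P (Γ.map (Matrix.GeneralLinearGroup.map ι)) →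
      (∃ D : Subgroup (GL n ℚ), IsMonB Q S P D ∧ D.map (Matrix.GeneralLinearGroup.map (algebraMap ℚ ℚ_[ℓ])) ≤ Γ) ∨
      ((∀ e, IsBlk P e → e.rank ≠ 1 → ∃ σ : ℂ ≃+* ℂ, ∀ d : ℕ, (∀ p, d ∣ (e * (P p).map σ).rank) → d = 1) ∧
        IsTateN S P (Γ.map (Matrix.GeneralLinearGroup.map ι))) →
      (∀ (a b : ℕ) (t : (Fin a ⊕ Fin b → n) → ℂ),
        IsTateTensor (Γ.map (Matrix.GeneralLinearGroup.map ι)) a b t → MTfix S P a b t) ∧
      (IsAbel w Q S P (Γ.map (Matrix.GeneralLinearGroup.map ι)) → ∀ (a b : ℕ) (t : (Fin a ⊕ Fin b → n) → ℂ),
        MTfix S P a b t → IsTateTensor (Γ.map (Matrix.GeneralLinearGroup.map ι)) a b t) := by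
  obtain ⟨h1, h2, h3⟩ := gp_main43 H hdom
  refine ⟨h1, h2, fun ℓ _ ι Γ G hAB => h3 _ G ?_⟩
  rcases hAB with ⟨D, hD, hle⟩ | hB
  · refine Or.inl ⟨D, hD, ?_⟩
    refine le_trans (le_of_eq ?_) (Subgroup.map_mono hle)
    rw [mapC, Subgroup.map_map]
    congr 1
    ext g i j
    simp [Matrix.GeneralLinearGroup.map_apply]
  · exact Or.inr hB

end Pool.Agent.Results.MP_b8862a_ag.LargeHodgeNumber
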