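import Pool.Agent.Helper43.GH.Final

/-!
Polarised rational Hodge structures of any weight, with any endomorphism algebra, all of whose blocks have a large Hodge
number: the Mumford-Tate group contains all the isometries of determinant one on the blocks that commute with its
semi-invariants, and it is contained in the group of the tensors fixed by open subgroups of the Galois group.
-/

open Matrix MH

namespace Pool.Agent.Helper43.Keep.LargeHodgeNumberA

/-- Let `V = ℚ^n` carry a rational Hodge structure of weight `w` (given by the projections `P p` to the subspaces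
`V^{p, w-p}`) polarised by the form with matrix `Q`. The blocks are the primitive idempotents `e` of the complexified
endomorphism algebra; `e V` is an irreducible constituent of `V ⊗ ℂ` over the Mumford-Tate group. Suppose that for every
block some Hodge number `h = rank (e P p)` satisfies `r ≤ 1` or `(r + 1) ^ 2 ≤ dim e V`, `r = dim e V - h`; or, for a block
with an invariant symmetric form and `w = 2 m`, that `e V` is of type `(m, m)` or `s ^ 2 < rank (e P m)`, `s ≥ 2` the sum of
the Hodge numbers `rank (e P p)` with `p > m`. Then

(1) the Mumford-Tate group contains the group `D` of all isometries of `Q` that commute with all matrices spanning a line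
stable under the Mumford-Tate group and have determinant one on all the blocks, and `D` contains all the commutators of the
Mumford-Tate group;
(2) let `Γ` be a group of similitudes of `ℚ_ℓ^n` such that a subgroup of finite index preserves all lines of matrices stable
under the Mumford-Tate group, and such that for every automorphism `σ` of `ℂ` there is a Hodge-Tate decomposition with the
same numbers on the blocks as the conjugate by `σ` of the Hodge decomposition. If `Γ` contains a monodromy group, with an
element without scalar power on every block of rank at least two, or if for every block of rank at least two the Hodge numbers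
of some conjugate block have no common divisor, and the subgroups of finite index of `Γ` are semisimple and preserve no other
lines than those stable under the Mumford-Tate group, then the tensors fixed by subgroups of finite index of `Γ` are fixed by
the Mumford-Tate group; and conversely, if the theorem of Serre on abelian representations holds for `Γ`. -/
theorem result {n : Type*} [Fintype n] [DecidableEq n] (w : ℤ) (Q : Matrix n n ℚ) (S : Finset ℤ)
    (P : ℤ → Matrix n n ℂ) (H : IsHW w Q S P) (hdom : ∀ e, IsBlk P e → DomB w Q S P e) :
    (∀ g : GL n ℂ, InD Q S P (g : Matrix n n ℂ) → g ∈ MT S P) ∧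
    (∀ g ∈ MT S P, ∀ h ∈ MT S P, InD Q S P ((g * h * g⁻¹ * h⁻¹ : GL n ℂ) : Matrix n n ℂ)) ∧
    ∀ (ℓ : ℕ) [Fact ℓ.Prime] (ι : ℚ_[ℓ] →+* ℂ) (Γ : Subgroup (GL n ℚ_[ℓ])),
      IsGalN w Q S P (Γ.map (Matrix.GeneralLinearGroup.map ι)) →
      (∃ D : Subgroup (GL n ℚ), IsMonB Q S P D ∧ D.map (Matrix.GeneralLinearGroup.map (algebraMap ℚ ℚ_[ℓ])) ≤ Γ) ∨
      ((∀ e, IsBlk P e → e.rank ≠ 1 → ∃ σ : ℂ ≃+* ℂ, ∀ d : ℕ, (∀ p, d ∣ (e * (P p).map σ).rank) → d = 1) ∧
        IsTateN S P (Γ.map (Matrix.GeneralLinearGroup.map ι))) →
      (∀ (a b : ℕ) (t : (Fin a ⊕ Fin b → n) → ℂ),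
        IsTateTensor (Γ.map (Matrix.GeneralLinearGroup.map ι)) a b t → MTfix S P a b t) ∧
      (IsAbel w Q S P (Γ.map (Matrix.GeneralLinearGroup.map ι)) → ∀ (a b : ℕ) (t : (Fin a ⊕ Fin b → n) → ℂ),
        MTfix S P a b t → IsTateTensor (Γ.map (Matrix.GeneralLinearGroup.map ι)) a b t) := by
  obtain ⟨h1, h2, h3⟩ := gh_main43 H hdom
  refine ⟨h1, h2, fun ℓ _ ι Γ G hAB => h3 _ G ?_⟩
  rcases hAB with ⟨D, hD, hle⟩ | hB
  · refine Or.inl ⟨D, hD, ?_⟩
    refine le_trans (le_of_eq ?_) (Subgroup.map_mono hle)
    rw [mapC, Subgroup.map_map]
    congr 1
    ext g i j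
    simp [Matrix.GeneralLinearGroup.map_apply]
  · exact Or.inr hB

end Pool.Agent.Helper43.Keep.LargeHodgeNumberA
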