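import Pool.Agent.Helper43.RR.Fin

/-!
Strong symplectic Mumford-Tate pairs of weights zero and one with a semisimple standard
representation (all Albert types), such that the cocharacter is conjugate to its opposite (the
reflex field is real) and such that its conjugacy class is fixed by symmetries (the reflex field
is rational, or has places of degree one), or there are places of bad reduction: the complete
list of the dimensions and signs of the irreducible subrepresentations which force the group to
contain the derived group of the Lefschetz group.
-/

open Module MTPairs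

namespace Pool.Agent.Helper43.Keep.RationalReflexField

/-- Let `R` be a set of pairs `(D, e)`. The following are equivalent: every strong symplectic
Mumford-Tate pair of weights `0` and `1` (the group `G` is generated by the conjugates of one
cocharacter, given by the idempotent `π`, under `G` and under a group `Γ` of semilinear
automorphisms normalising `G`), whose standard representation is semisimple, whose cocharacter
is conjugate in `G` to the opposite one, and such that every irreducible subrepresentation `W`
has a sign `e` with `(dim W, e)` in `R`, and some subgroup `Γ₁` of `Γ` satisfies the local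
condition `LocAt` (dense in `Γ₁` are the elements of `Γ` which fix the conjugacy class under `G`
of some conjugate of `π`, or commute with a unipotent element of a place of bad reduction), where
either `Γ₁ = Γ`, or the sign is `-1`, `W` is stable under `Γ` and the index of `Γ₁` in `Γ` is
prime to each odd `k ≥ 3` such that the dimension of `W` is a `k`-th power, contains all the
isometries of the form with Gram matrix `J` which commute with all the endomorphisms of the
representation and have determinant one on every irreducible subrepresentation; `R` contains no
pair `(2 ^ n, -1)` with `5 ≤ n` and `n = 1, 2` modulo `4`, no pair `(2 ^ n, 1)` with `3 ≤ n` and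
`n = 0, 3` modulo `4`, and no pair `(2 ^ n, 0)` with `4 ≤ n` even. -/
theorem result {K : Type*} [Field K] [IsAlgClosed K] [CharZero K] (R : Set (ℕ × ℤ)) :
    (∀ (m : Type) [Fintype m] [DecidableEq m] (Γ : Subgroup (Equiv.Perm (m → K)))
      (J : Matrix m m K) (G : Subgroup (Matrix.GeneralLinearGroup m K)) (π : Matrix m m K),
      IsStrongMTPair Γ J G π → IsReductiveRep G → IsSelfOpposite G π →
      (∀ W, IsIrrSub G W → ∃ e, HasSign J G W e ∧ (finrank K W, e) ∈ R ∧
        ∃ Γ₁ ≤ Γ, LocAt Γ₁ Γ G π W ∧ (Γ₁ = Γ ∨ (e = -1 ∧ (∀ θ ∈ Γ, ∀ v ∈ W, θ v ∈ W) ∧
          ∀ d k, Odd k → 3 ≤ k → finrank K W = d ^ k → Nat.Coprime k (Γ₁.relIndex Γ)))) →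
      ContainsDer J G) ↔
    (∀ n, 5 ≤ n → n % 4 = 1 ∨ n % 4 = 2 → (2 ^ n, -1) ∉ R) ∧
    (∀ n, 3 ≤ n → n % 4 = 0 ∨ n % 4 = 3 → (2 ^ n, 1) ∉ R) ∧
    (∀ n, 4 ≤ n → Even n → (2 ^ n, 0) ∉ R) :=
  AV.RR.criterion R

end Pool.Agent.Helper43.Keep.RationalReflexField
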