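import Pool.Agent.Helper35.TZ.Fin2

/-!
# Lattices in `PSL(n, 𝕜)`, `𝕜 = ℝ, ℂ, ℍ`, against lattices in all other simple groups

`LH Γ` is the group von Neumann algebra `L(Γ)` of a discrete group `Γ`, and `IsoL Γ Λ` says that `L(Γ)` and `L(Λ)` are `*`-isomorphic.

Let `L` be a simple real Lie algebra with a Cartan involution `θ`, and `b` a basis of `L` which is orthonormal for the inner product `-κ(x, θ y)`, `κ` the
Killing form (`CartanBasis θ b`; they exist for every simple `L` of finite dimension). `MaxFlat θ A` says that `A` is a maximal commutative subspace of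
`{x | θ x = - x}`; its dimension is the real rank `r` of `L`. `autG b` is the group of the automorphisms of `L` (as matrices in the basis `b`), and `autC b`
its identity component; the connected simple real Lie groups with trivial centre are the groups `autC b`, up to isomorphism. `slR n 𝕜`, `𝕜 = ℝ, ℂ`, is the
Lie algebra `sl(n, 𝕜)` of the matrices of trace zero, and `slH n` is `sl(n, ℍ)`, the quaternionic matrices whose trace has real part zero, as real Lie
algebras. `PSLH n` is `PSL(n, ℍ)`: `SLH n` is the group `SL(n, ℍ)` of the matrices `g` of `SL(2n, ℂ)` with `g J = J ḡ`, `J = (0, -1; 1, 0)`.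

Let `r ≥ 2` and let `Γ` be a lattice of `autC b`. If `L(Γ)` is isomorphic to the algebra of a lattice of `PSL(n, 𝕜)`, `𝕜 = ℝ, ℂ` or `ℍ`, for some `n`,
then `n = r + 1` and `L` is isomorphic to `sl(n, 𝕜)`. So the question has a positive answer whenever one of the two groups is `PSL(n, 𝕜)`.
-/

set_option autoImplicit false

open Matrix
open Pool.Agent.Helper66.RKS Pool.Agent.Helper96.SA Pool.Agent.Helper96.TO Pool.Agent.Helper96.HN
open Pool.Agent.Helper35.TZ (autC)
open Pool.Agent.Helper42.TZ (slR)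
open Pool.Agent.Helper77.TZ4 (slH)

namespace Pool.Agent.Results.MP_0f6f3f_an.TypeAZ

theorem result (L : Type) [LieRing L] [LieAlgebra ℝ L] [LieAlgebra.IsSimple ℝ L] (N : ℕ) (b : Module.Basis (Fin N) ℝ L)
    (θ : L ≃ₗ⁅ℝ⁆ L) (A : Submodule ℝ L) (Γ : Subgroup (autC b))
    (hb : CartanBasis θ b) (hA : MaxFlat θ A) (hr : 2 ≤ Module.finrank ℝ A) (hΓ : Pool.Agent.Helper96.FR.Lattice Γ) (n : ℕ) :
    -- lattices of `PSL(n, ℝ)`
    (∀ Λ : Subgroup (ProjectiveSpecialLinearGroup (Fin n) ℝ), Pool.Agent.Helper96.FR.Lattice Λ → IsoL Γ Λ →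
      n = Module.finrank ℝ A + 1 ∧ Nonempty (L ≃ₗ⁅ℝ⁆ slR n ℝ)) ∧
    -- lattices of `PSL(n, ℂ)`
    (∀ Λ : Subgroup (ProjectiveSpecialLinearGroup (Fin n) ℂ), Pool.Agent.Helper96.FR.Lattice Λ → IsoL Γ Λ →
      n = Module.finrank ℝ A + 1 ∧ Nonempty (L ≃ₗ⁅ℝ⁆ slR n ℂ)) ∧
    -- lattices of `PSL(n, ℍ)`
    (∀ Λ : Subgroup (PSLH n), Pool.Agent.Helper96.FR.Lattice Λ → IsoL Γ Λ →
      n = Module.finrank ℝ A + 1 ∧ Nonempty (L ≃ₗ⁅ℝ⁆ slH n)) :=
  ⟨fun _ hΛ h => Pool.Agent.Helper35.TZ.final_R hb hA hr hΓ hΛ h,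
    fun _ hΛ h => Pool.Agent.Helper35.TZ.final_C hb hA hr hΓ hΛ h,
    fun _ hΛ h => Pool.Agent.Helper35.TZ.final_H hb hA hr hΓ hΛ h⟩

end Pool.Agent.Results.MP_0f6f3f_an.TypeAZ
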